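import Pool.Agent.NH81.NS.Final
/-!
# Positive solutions of `x_{n+1} = γ + x_{n-2} / x_{n-1}` which converge to no periodic solution

At `γ = (√5 - 1) / 2` the eigenvalues of the linearisation at the equilibrium are `exp (± 3πi / 5)`
and `(√5 - 1) / 2`. For `γ = (√5 - 1) / 2 - ε ^ 2` an explicit polynomial change of coordinates
brings the recurrence to the normal form `U ↦ λ U (1 + ε ^ 2 (v₀ + v₁ |U| ^ 2)) + O (ε ^ 3)` with
`Re v₀ > 0 > Re v₁`. On an invariant annular region the lifted map preserves an order, so all the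
orbits in this region have the same rotation number; it depends continuously on `ε` and is not
constant. For the `ε` for which it is irrational no orbit in the region can converge to a periodic
orbit.
-/
open Set Filter Topology

namespace Pool.Agent.Results.MP_b9109d_an.IrrationalRotation

/-- **Solutions which converge to no periodic solution.** The sequences are indexed from `0`:
`x 0 = x_{-2}`, `x 1 = x_{-1}`, `x 2 = x_0`.
(1) There are `γ > 0` and a positive solution of `x_{n+1} = γ + x_{n-2} / x_{n-1}` which converges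
neither to the equilibrium `γ + 1` nor to any periodic sequence (in particular to no periodic
solution).
(2) Such `γ` exist in every interval `((√5 - 1) / 2 - δ, (√5 - 1) / 2)`, and the initial values can
be taken arbitrary in a nonempty open set. -/
theorem result :
    (∃ γ : ℝ, 0 < γ ∧ ∃ x : ℕ → ℝ, (∀ n, 0 < x n) ∧
      (∀ n, x (n + 3) = γ + x n / x (n + 1)) ∧
      ¬ Tendsto x atTop (𝓝 (γ + 1)) ∧
      ∀ (p : ℕ → ℝ) (k : ℕ), 0 < k → (∀ n, p (n + k) = p n) →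
        ¬ Tendsto (fun n => x n - p n) atTop (𝓝 0)) ∧
    ∀ δ : ℝ, 0 < δ → ∃ γ : ℝ, (Real.sqrt 5 - 1) / 2 - δ < γ ∧ γ < (Real.sqrt 5 - 1) / 2 ∧ 0 < γ ∧
      ∃ O : Set (ℝ × ℝ × ℝ), IsOpen O ∧ O.Nonempty ∧
        (∀ a ∈ O, 0 < a.1 ∧ 0 < a.2.1 ∧ 0 < a.2.2) ∧
        ∀ x : ℕ → ℝ, (x 0, x 1, x 2) ∈ O → (∀ n, x (n + 3) = γ + x n / x (n + 1)) →
          (∀ n, 0 < x n) ∧ ¬ Tendsto x atTop (𝓝 (γ + 1)) ∧
          ∀ (p : ℕ → ℝ) (k : ℕ), 0 < k → (∀ n, p (n + k) = p n) →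
            ¬ Tendsto (fun n => x n - p n) atTop (𝓝 0) := by
  -- a solution with given initial values
  have hsol : ∀ (γ : ℝ) (a : ℝ × ℝ × ℝ), ∃ x : ℕ → ℝ, (x 0, x 1, x 2) = a ∧
      ∀ n, x (n + 3) = γ + x n / x (n + 1) := by
    intro γ a
    let F : ℝ × ℝ × ℝ → ℝ × ℝ × ℝ := fun s => (s.2.1, s.2.2, γ + s.1 / s.2.1)
    refine ⟨fun n => (F^[n] a).1, ?_, fun n => ?_⟩
    · rfl
    · have h1 : ∀ m, F^[m + 1] a = F (F^[m] a) := fun m => Function.iterate_succ_apply' F m a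
      have h2 : ∀ m, (F^[m + 1] a).1 = (F^[m] a).2.1 := fun m => by rw [h1]
      have h3 : ∀ m, (F^[m + 1] a).2.1 = (F^[m] a).2.2 := fun m => by rw [h1]
      have h4 : ∀ m, (F^[m + 1] a).2.2 = γ + (F^[m] a).1 / (F^[m] a).2.1 := fun m => by rw [h1]
      show (F^[n + 3] a).1 = γ + (F^[n] a).1 / (F^[n + 1] a).1
      rw [h2 (n + 2), h3 (n + 1), h4 n, h2 n]
  have hmain : ∀ δ : ℝ, 0 < δ → ∃ γ : ℝ, (Real.sqrt 5 - 1) / 2 - δ < γ ∧
      γ < (Real.sqrt 5 - 1) / 2 ∧ 0 < γ ∧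
      ∃ O : Set (ℝ × ℝ × ℝ), IsOpen O ∧ O.Nonempty ∧
        (∀ a ∈ O, 0 < a.1 ∧ 0 < a.2.1 ∧ 0 < a.2.2) ∧
        ∀ x : ℕ → ℝ, (x 0, x 1, x 2) ∈ O → (∀ n, x (n + 3) = γ + x n / x (n + 1)) →
          (∀ n, 0 < x n) ∧ ¬ Tendsto x atTop (𝓝 (γ + 1)) ∧
          ∀ (p : ℕ → ℝ) (k : ℕ), 0 < k → (∀ n, p (n + k) = p n) →
            ¬ Tendsto (fun n => x n - p n) atTop (𝓝 0) := by
    intro δ hδ
    obtain ⟨γ, h1, h2, h3, O, hO, hne, h4⟩ := NH81.NS.Main.main hδ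
    refine ⟨γ, h1, h2, h3, O, hO, hne, fun a ha => ?_, fun x hx0 hx => ?_⟩
    · obtain ⟨x, hxa, hx⟩ := hsol γ a
      have hpos := (h4 x (by rw [hxa]; exact ha) hx).1
      rw [← hxa]
      exact ⟨hpos 0, hpos 1, hpos 2⟩
    · obtain ⟨h5, h6⟩ := h4 x hx0 hx
      refine ⟨h5, fun hlim => ?_, h6⟩
      refine h6 (fun _ => γ + 1) 1 one_pos (fun _ => rfl) ?_
      have := hlim.sub_const (γ + 1)
      rwa [sub_self] at this
  refine ⟨?_, hmain⟩
  obtain ⟨γ, _, _, h3, O, _, ⟨a, ha⟩, _, h4⟩ := hmain 1 one_pos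
  obtain ⟨x, hxa, hx⟩ := hsol γ a
  obtain ⟨h5, h6, h7⟩ := h4 x (by rw [hxa]; exact ha) hx
  exact ⟨γ, h3, x, h5, hx, h6, h7⟩

end Pool.Agent.Results.MP_b9109d_an.IrrationalRotation
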